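import Mathlib
import Pool.Agent.W484.AH.VarMain

/-!
# The variational Hodge conjecture for products with abelian varieties with complex multiplication

`π : X → S` is an arbitrary smooth projective family over a smooth connected base. `H b` is the
space of global sections of the local system `R^b π_* ℚ`; by the global invariant cycle theorem it
has a Hodge structure such that the evaluation at every point `s` of `S` is an injective morphism of
Hodge structures from `H b` to the cohomology of the fibre `X_s`. `(D b).part p` is the subspace of
type `(p, *)` of `ℂ ⊗ H b`.

`A i` (`i` in a finite or infinite index set) are abelian varieties with complex multiplication by
the CM fields `K i`; the first cohomology group of `A i` is identified with `K i`, and `Φ` is the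
union of the CM types. We suppose that the Galois group of the compositum of the fields contains all
the sign changes (`SignChanges`): this holds for instance if the fields are independent and the Galois
groups of their Galois closures are as large as possible.

For a point `s` of the base `AlgebraicClasses` is the following pair: `base` is the space of the
global sections of `R^b π_* ℚ` whose value at `s` is algebraic, and `total a j` is the space of the
global sections of the Künneth component `R^b π_* ℚ ⊗ H¹ (A (j 1)) ⊗ ⋯ ⊗ H¹ (A (j a))` of the
cohomology of the family `X × A (j 1) × ⋯ × A (j a)` whose value at `s` is algebraic (up to the
identification of `H¹ (A i)` with a Tate twist of its dual by a polarization these are multilinear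
maps from `K (j 1) × ⋯ × K (j a)` to `H b`). The condition `value` holds because the multiplication
with products of divisor classes and the projection to `X_s` map algebraic classes to algebraic
classes.

The theorem: outside a set of at most `∑ b, dim H b` indices, if all sections of `R^b π_* ℚ` which are
algebraic at the point `0` are algebraic at the point `s` (the variational Hodge conjecture for the
family `X`), then the same holds for the sections of the cohomology of the family `X × A`, for all
products `A` of powers of abelian varieties `A i`.

So for all smooth projective families the variational Hodge conjecture for `X × A` follows from the
one for `X`, for all but finitely many `A i`, with an explicit bound which does not depend on the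
points and the powers. For families with fibres of dimension at most three it is a theorem for
`X × A`, since the Hodge conjecture is known for these fibres.

The idea of the proof: by the theorem on types (module `Types`) the components of a Hodge class on
`X × A` are balanced, outside the exceptional set; so it is a combination of products of divisor
classes and Hodge classes of `X`. The pairing between products of divisor forms and products of
divisor tensors is perfect (trace forms of the fields), so the Hodge classes of `X` which occur can
be chosen as values at products of divisor tensors, and are algebraic at the point `0`.
-/

set_option autoImplicit false

open Module

namespace Pool.Agent.Results.MP_e9c0f3_ag.AlmostAllCMFactors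

open Pool.Agent.W484.AH

theorem result {ι : Type} {K : ι → Type} [∀ i, Field (K i)] [∀ i, NumberField (K i)]
    [∀ i, NumberField.IsCMField (K i)] {Φ : Set (Emb K)} (hΦ : IsCMType Φ) (hS : SignChanges K)
    {β : Type} [Fintype β] (H : β → Type) [∀ b, AddCommGroup (H b)] [∀ b, Module ℚ (H b)]
    [∀ b, Module.Finite ℚ (H b)] (D : ∀ b, HodgeData (H b)) :
    ∃ S : Finset ι, S.card ≤ ∑ b, finrank ℚ (H b) ∧
      ∀ (b : β) (P P' : AlgebraicClasses Φ (D b)), P.base ≤ P'.base →
        ∀ (a : ℕ) (j : Fin a → ι), (∀ t, j t ∉ S) → P.total a j ≤ P'.total a j :=
  mainVar hΦ hS H D

end Pool.Agent.Results.MP_e9c0f3_ag.AlmostAllCMFactors
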