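import Pool.Agent.W547.VHC.Main

/-!
# The variational Hodge conjecture for families of products of surfaces and abelian varieties

Let `X/B` be a smooth projective family over a connected base whose fibres are products of
(symmetric powers of) surfaces `S_(i,b)` with `b_1 = 0`, `i = 0, ..., r-1`, and of an abelian
variety `A_b`.  After pulling back to the universal covering, whose points are the elements of `B`,
the local systems become constant.  Let `T_i` be the orthogonal complement, in `H^2(S_(i,b))(1)`,
of the flat classes which are algebraic on all fibres: a flat family of polarised rational Hodge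
structures.  `T b` (structure `HS n`) is the Hodge structure on the constant space
`ℚ^n = ⊕ T_i` at the point `b`, given by its intersection form, which is the same matrix `Q` for
all `b` (`hQ`), and its Hodge operator; `c` says to which surface a basis vector belongs (`hbx`:
the Hodge structure is the sum of Hodge structures on the `T_i`).  `W b` (structure `HW w`) is
`H^1(A_b)`, with its Riemann form and Hodge operator.

We assume that there is *one* point `b₀` with `(T b₀).Big c p q`: the Hodge numbers of `T_i` are
`(p_i, q_i, p_i)`, the only Hodge endomorphisms of `T b₀` are the rational scalars on the `T_i`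
(so the `T_i` are the transcendental parts of the cohomology of the surfaces at `b₀`), and
`2 p_i^2 (p_i^2 + 1) < (q_i - 2 p_i) (q_i + p_i)`, or `p_i = 1` and `q_i` is not `0` or `2`.
Nothing is assumed about the other fibres.

The cohomology of `S_(i,b)` is spanned by the flat algebraic classes (`Fin s`, `d` says to which
surface such a class belongs) and `T_i`.  By Poincare duality and Kuenneth a flat class on
`S_(a 1) × ... × S_(a m) × A`, of degree `l` in `A`, is a rational form `t` with `m` variables in
`ℚ^s ⊕ T` and `l` variables in `H^1(A)`, alternating in the latter.  `IsHodgeX (T b) (W b) t` says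
that it is a Hodge class on the fibre at `b`.  The map `f` divides the factors `1, ..., m` into
blocks of equal surfaces; classes on the product of the symmetric powers `Sym^N(S_i)`, one for
each block with `N` elements, are symmetric under the permutations of the factors in each block
(`hsym`); the `N` are arbitrary, and `f` may be injective.  `D` is a set of surfaces such that, for
`i` not in `D`, `T_i` occurs, in the Kuenneth components of `t`, in less than `rank T_i` of the
symmetric powers.  For `l > 0` we assume `p_i ≥ 2` for all `i`.

We prove: the flat class `t` is a Hodge class on all fibres if and only if it is a sum of products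
of classes in `algE Q c d a D`, that is, combinations of products of

* flat algebraic classes on some of the factors `S_(a j)`,
* transcendental parts of the diagonals on pairs of equal factors,
* determinants `det T_i` on `rank T_i` factors, for some `i ∈ D`,

and of flat families `β` of Hodge classes on the abelian varieties `A_b` (`flatX`).

A flat class which is algebraic on one fibre is a Hodge class on all fibres, by Deligne's theorem
of the fixed part.  So (`D = ∅`, `l = 0`) it is algebraic on all fibres: the variational Hodge
conjecture holds, in all degrees, for all families of products of symmetric powers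
`Sym^(N_1)(S_(a 1)) × ... × Sym^(N_k)(S_(a k))` with less than `rank T_i` factors belonging to
`S_i`, and arbitrary `N_j`, as soon as *one* fibre satisfies the conditions, although on the other
fibres the `T_i` may have any Hodge endomorphisms, further algebraic classes and further Hodge
classes.  If all `p_i ≥ 2` it holds for the product with a family of abelian varieties `A_b` whose
flat Hodge classes are algebraic.  Without any bound on the number of factors it holds for all
fibre products of the families `S_i/B` if and only if it holds for the flat classes `det T_i`.
-/

open Matrix Finset Module

namespace Pool.Agent.Results.MP_e9c0f3_ag.SurfacesTimesAbelian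

open Pool.Agent.W544.PG Pool.Agent.W544.FF Pool.Agent.W547.VHC

/-- Flat families of Hodge classes, if one fibre satisfies the conditions. -/
theorem result {B : Type} {n r w s m l k : ℕ} (Q : Matrix (Fin n) (Fin n) ℚ) (T : B → HS n)
    (hQ : ∀ b, (T b).Q = Q) (c : Fin n → Fin r) (hbx : ∀ b, BD c (T b).x) (W : B → HW w)
    (b₀ : B) (p q : Fin r → ℕ) (hT : (T b₀).Big c p q) (hpl : l = 0 ∨ ∀ i, 2 ≤ p i)
    (d : Fin s → Fin r) (a : Fin m → Fin r) (f : Fin m → Fin k)
    (hf : ∀ j j', f j = f j' → a j = a j') (D : Finset (Fin r))
    (t : (Fin m → Fin s ⊕ Fin n) → (Fin l → Fin w) → ℚ)
    (hta : ∀ J L, t J L ≠ 0 → ∀ j, Sum.elim d c (J j) = a j)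
    (hsym : ∀ π : Equiv.Perm (Fin m), (∀ j, f (π j) = f j) →
      ∀ J, t (fun j => J (π j)) = t J)
    (htr : ∀ J L, t J L ≠ 0 → ∀ i, i ∉ D →
      (univ.filter fun y : Fin k => ∃ j b, f j = y ∧ J j = Sum.inr b ∧ c b = i).card <
        2 * p i + q i) (halt : ∀ J, IsAlt (t J)) :
    (∀ b, IsHodgeX (T b) (W b) t) ↔ t ∈ flatX Q W c d a D l :=
  main Q T hQ hbx W b₀ hT hpl d a f hf D t hta hsym htr halt

end Pool.Agent.Results.MP_e9c0f3_ag.SurfacesTimesAbelian
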